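import Mathlib
import Pool.Agent.H.MP_5bb273_ag.A

namespace Pool.Agent.H.MP_5bb273_ag

open MvPolynomial Pool.Agent.Lib.helper12.Gen

variable {K : Type*} [Field K]

lemma der_mem {A : Type*} [CommRing A] [Algebra K A] (D : Derivation K A A) (I : Ideal A) (k : ℕ) :
    ∀ f ∈ I ^ (k + 1), D f ∈ I ^ k := by
  induction k with
  | zero => intro f _; simp
  | succ k ih =>
    intro f hf
    rw [pow_succ] at hf
    refine Submodule.mul_induction_on hf (fun a ha b hb => ?_) fun a b ha hb => ?_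
    · rw [Derivation.leibniz, smul_eq_mul, smul_eq_mul]
      refine Ideal.add_mem _ (Ideal.mul_mem_right _ _ ha) ?_
      rw [mul_comm, pow_succ]
      exact Ideal.mul_mem_mul (ih a ha) hb
    · rw [map_add]; exact Ideal.add_mem _ ha hb

lemma iter_mem {A : Type*} [CommRing A] [Algebra K A] (D : Derivation K A A) (I : Ideal A)
    (u k : ℕ) : ∀ f ∈ I ^ (k + u), D^[u] f ∈ I ^ k := by
  induction u with
  | zero => intro f hf; simpa using hf
  | succ u ih =>
    intro f hf
    rw [Function.iterate_succ_apply]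
    exact ih _ (der_mem D I _ f hf)

lemma iter_mono (i : Fin 2) (u : ℕ) (s : Fin 2 →₀ ℕ) (c : K) :
    (pderiv i)^[u] (monomial s c) =
      monomial (s - Finsupp.single i u) (c * ((s i).descFactorial u : ℕ)) := by
  induction u with
  | zero => simp
  | succ u ih =>
    rw [Function.iterate_succ_apply', ih, pderiv_monomial, Finsupp.single_add, tsub_tsub,
      Nat.descFactorial_succ]
    congr 1
    simp
    ring

lemma iter_sum {ι : Type*} (i : Fin 2) (u : ℕ) (t : Finset ι) (g : ι → MvPolynomial (Fin 2) K) :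
    (pderiv i)^[u] (∑ k ∈ t, g k) = ∑ k ∈ t, (pderiv i)^[u] (g k) := by
  induction u with
  | zero => simp
  | succ u ih => simp only [Function.iterate_succ_apply', ih, map_sum]

noncomputable def ex (k : ℕ) : Fin 2 →₀ ℕ := Finsupp.single 0 (ea k) + Finsupp.single 1 (eb k)

lemma ex0 (k : ℕ) : ex k 0 = ea k := by simp [ex]
lemma ex1 (k : ℕ) : ex k 1 = eb k := by simp [ex]

noncomputable def pl (c : Fin 28 → K) : MvPolynomial (Fin 2) K := ∑ k : Fin 28, monomial (ex k) (c k)

lemma pl_sub (c d : Fin 28 → K) : pl c - pl d = pl (c - d) := by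
  simp [pl, Finset.sum_sub_distrib]

lemma ex_inj : Function.Injective fun k : Fin 28 => ex k := by
  intro k l e
  have e : ex k = ex l := e
  have a : ea k = ea l := by rw [← ex0, ← ex0, e]
  have b : eb k = eb l := by rw [← ex1, ← ex1, e]
  have : ∀ k l : Fin 28, ea k = ea l → eb k = eb l → k = l := by decide +kernel
  exact this k l a b

lemma coeff_pl (c : Fin 28 → K) (k : Fin 28) : coeff (ex k) (pl c) = c k := by
  rw [pl, coeff_sum, Finset.sum_eq_single k (fun l _ h => ?_) (by simp)]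
  · simp
  · rw [coeff_monomial, if_neg fun e => h (ex_inj e)]

lemma expand {f : MvPolynomial (Fin 2) K} (h : f.totalDegree ≤ 6) : ∃ c, f = pl c := by
  refine ⟨fun k => coeff (ex k) f, ?_⟩
  rw [pl, ← Finset.sum_image (s := Finset.univ) (g := fun k : Fin 28 => ex k)
    (f := fun s => monomial s (coeff s f)) (fun a _ b _ e => ex_inj e)]
  conv_lhs => rw [f.as_sum]
  refine Finset.sum_subset (fun s hs => ?_) fun s _ hs => by simp [notMem_support_iff.1 hs]
  have d := (le_totalDegree hs).trans h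
  rw [Finsupp.sum_fintype _ _ (fun _ => rfl), Fin.sum_univ_two] at d
  have : ∀ a < 7, ∀ b < 7, a + b ≤ 6 → ∃ k : Fin 28, ea k = a ∧ eb k = b := by decide +kernel
  obtain ⟨k, k0, k1⟩ := this (s 0) (by omega) (s 1) (by omega) d
  refine Finset.mem_image.2 ⟨k, Finset.mem_univ _, ?_⟩
  ext i
  fin_cases i
  · exact (ex0 k).trans k0
  · exact (ex1 k).trans k1

lemma deg_pl (c : Fin 28 → K) (d : ℕ) (h : ∀ k : Fin 28, d < ea k + eb k → c k = 0) :
    (pl c).totalDegree ≤ d := by
  refine totalDegree_finsetSum_le fun k _ => ?_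
  by_cases e : d < ea k + eb k
  · simp [h k e]
  · refine (totalDegree_monomial_le _ _).trans ?_
    rw [Finsupp.sum_fintype _ _ (fun _ => rfl), Fin.sum_univ_two, ex0, ex1]
    simpa using e

lemma deg6 (c : Fin 28 → K) : (pl c).totalDegree ≤ 6 :=
  deg_pl c 6 fun k h => absurd h (by revert k; decide +kernel)

noncomputable abbrev I (x y : K) : Ideal (MvPolynomial (Fin 2) K) :=
  Ideal.span {X 0 - C x, X 1 - C y}

lemma van [CharZero K] {x y : K} {m u v : ℕ} (h : u + v < m) {c : Fin 28 → K}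
    (hc : pl c ∈ I x y ^ m) : ∑ k : Fin 28, ent x y u v k * c k = 0 := by
  have m := iter_mem (pderiv 0) _ u 1 _ (iter_mem (pderiv 1) _ v _ _
    (Ideal.pow_le_pow_right (by omega) hc))
  rw [pow_one, Ideal.mem_span_pair] at m
  obtain ⟨a, b, e⟩ := m
  have e' := congrArg (eval ![x, y]) e
  simp only [pl, iter_sum, iter_mono, map_sum, eval_monomial] at e'
  simp only [map_add, map_mul, map_sub, eval_X, eval_C, Matrix.cons_val_zero, Matrix.cons_val_one,
    sub_self, mul_zero, add_zero] at e'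
  have nz : ((u.factorial * v.factorial : ℕ) : K) ≠ 0 := by
    exact_mod_cast mul_ne_zero (Nat.factorial_ne_zero u) (Nat.factorial_ne_zero v)
  refine mul_left_cancel₀ nz ?_
  rw [mul_zero, e', Finset.mul_sum]
  refine Finset.sum_congr rfl fun k _ => ?_
  rw [Finsupp.prod_fintype _ _ (fun _ => pow_zero _), Fin.prod_univ_two]
  simp [ent, ex0, ex1, Nat.descFactorial_eq_factorial_mul_choose]
  ring

lemma bin {A : Type*} [CommRing A] (z x : A) {a : ℕ} (h : a < 7) :
    z ^ a = ∑ u ∈ Finset.range 7, (z - x) ^ u * x ^ (a - u) * (a.choose u : ℕ) := by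
  conv_lhs => rw [← sub_add_cancel z x, add_pow]
  refine Finset.sum_subset (Finset.range_mono h) fun u _ hu => ?_
  rw [Nat.choose_eq_zero_of_lt (by simpa using hu)]
  simp

lemma mem_of {x y : K} {m : ℕ} {c : Fin 28 → K}
    (h : ∀ u v, u + v < m → ∑ k : Fin 28, ent x y u v k * c k = 0) : pl c ∈ I x y ^ m := by
  have e : pl c = ∑ u ∈ Finset.range 7, ∑ v ∈ Finset.range 7,
      C (∑ k : Fin 28, ent x y u v k * c k) * ((X 0 - C x) ^ u * (X 1 - C y) ^ v) := by
    simp only [map_sum, Finset.sum_mul]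
    simp only [Finset.sum_comm (t := (Finset.univ : Finset (Fin 28)))]
    refine Finset.sum_congr rfl fun k _ => ?_
    have l : ∀ k : Fin 28, ea k < 7 ∧ eb k < 7 := by decide +kernel
    rw [monomial_eq, Finsupp.prod_fintype _ _ (fun _ => pow_zero _), Fin.prod_univ_two, ex0, ex1,
      bin (X 0) (C x) (l k).1, bin (X 1) (C y) (l k).2, Finset.sum_mul_sum, Finset.mul_sum]
    refine Finset.sum_congr rfl fun u _ => ?_
    rw [Finset.mul_sum]
    refine Finset.sum_congr rfl fun v _ => ?_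
    simp only [ent, map_mul, map_pow, map_natCast, Nat.cast_mul]
    ring
  rw [e]
  refine Ideal.sum_mem _ fun u _ => Ideal.sum_mem _ fun v _ => ?_
  by_cases k : u + v < m
  · simp [h u v k]
  · refine Ideal.mul_mem_left _ _ (Ideal.pow_le_pow_right (not_lt.1 k) ?_)
    rw [pow_add]
    exact Ideal.mul_mem_mul (Ideal.pow_mem_pow (Ideal.subset_span (by simp)) _)
      (Ideal.pow_mem_pow (Ideal.subset_span (by simp)) _)

def mm : Fin 7 → ℕ := ![3, 2, 2, 2, 2, 2, 2]

def Sys (p : Fin 7 × Fin 2 → K) (f : MvPolynomial (Fin 2) K) : Prop :=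
  f.totalDegree ≤ 6 ∧ ∀ i, f ∈ I (p (i, 0)) (p (i, 1)) ^ mm i

def R (p : Fin 7 × Fin 2 → K) (c : Fin 28 → K) (r : ℕ) : K := ∑ k : Fin 28, row p r k * c k

lemma sys_of {p : Fin 7 × Fin 2 → K} {c : Fin 28 → K} (h : ∀ r < 24, R p c r = 0) :
    Sys p (pl c) := by
  refine ⟨deg6 c, fun i => mem_of fun u v k => ?_⟩
  have : ∀ i : Fin 7, ∀ u < 3, ∀ v < 3, u + v < mm i → ∃ r < 24, pt r = i ∧ du r = u ∧ dv r = v := by
    decide +kernel
  have l : ∀ i, mm i ≤ 3 := by decide
  obtain ⟨r, hr, rfl, rfl, rfl⟩ := this i u (by have := l i; omega) v (by have := l i; omega) k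
  exact h r hr

lemma R_of [CharZero K] {p : Fin 7 × Fin 2 → K} {c : Fin 28 → K} {r m : ℕ} (h : du r + dv r < m)
    (hc : pl c ∈ I (p (pt r, 0)) (p (pt r, 1)) ^ m) : R p c r = 0 := van h hc

lemma of_sys [CharZero K] {p : Fin 7 × Fin 2 → K} {c : Fin 28 → K} (h : Sys p (pl c)) :
    ∀ r < 24, R p c r = 0 := by
  intro r hr
  have : ∀ r < 24, du r + dv r < mm (pt r) := by decide +kernel
  exact R_of (this r hr) (h.2 _)

lemma genR (K : Type*) [Field K] [CharZero K] (m A B : ℕ) (s : ℕ → ℕ)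
    (hA : chkA m 28 A (fun r => row p0 (s r)) = true) (hB : chkB m 28 A B = true) :
    ∃ G : MvPolynomial (Fin 7 × Fin 2) K, G ≠ 0 ∧ ∀ p, eval p G ≠ 0 → ∀ t : ℕ → K,
      ∃ c : Fin 28 → K, ∀ i < m, R p c (s i) = t i := by
  obtain ⟨G, h, k⟩ := gen K m 28 A B (fun r => row X (s r)) p0 _
    (fun i k => by simp [row, ent]) hA hB
  refine ⟨G, h, fun p hp t => ?_⟩
  obtain ⟨c, hc⟩ := k p hp fun i => t i
  refine ⟨c, fun i hi => ?_⟩
  rw [← hc ⟨i, hi⟩]
  refine Finset.sum_congr rfl fun k _ => ?_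
  simp [row, ent, ← coe_eval₂Hom]

end Pool.Agent.H.MP_5bb273_ag
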