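import Mathlib
import Pool.Agent.H.MP_5bb273_ag.B

namespace Pool.Agent.H.MP_5bb273_ag

open MvPolynomial Pool.Agent.Lib.helper12.Gen

variable {K : Type*} [Field K]

noncomputable def φ : MvPolynomial (Fin 2) K →ₐ[K] Polynomial K := aeval ![Polynomial.X, 0]

lemma φ_deg (f : MvPolynomial (Fin 2) K) : (φ f).natDegree ≤ f.totalDegree := by
  simpa [φ] using aeval_natDegree_le f le_rfl ![Polynomial.X, 0] (n := 1)
    (fun i => by fin_cases i <;> simp)

lemma φ_coeff (c : Fin 28 → K) (s j : ℕ) : (Polynomial.X ^ s * φ (pl c)).coeff j =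
    ∑ k : Fin 28, (if eb k = 0 ∧ ea k + s = j then 1 else 0) * c k := by
  simp only [pl, map_sum, Finset.mul_sum, Polynomial.finsetSum_coeff]
  refine Finset.sum_congr rfl fun k _ => ?_
  rw [φ, aeval_monomial, Finsupp.prod_fintype _ _ (fun _ => pow_zero _), Fin.prod_univ_two, ex0, ex1]
  by_cases h : eb k = 0
  · simp only [h, Matrix.cons_val_zero, pow_zero, mul_one, true_and]
    rw [mul_left_comm, ← pow_add, Polynomial.algebraMap_apply, Polynomial.coeff_C_mul,
      Polynomial.coeff_X_pow, add_comm, mul_comm]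
    simp [eq_comm]
  · simp [h]

lemma gen3 (K : Type*) [Field K] [CharZero K] :
    ∃ G : MvPolynomial (Fin 7 × Fin 2) K, G ≠ 0 ∧ ∀ p, eval p G ≠ 0 → ∀ j < 9,
      ∃ f : ℕ → MvPolynomial (Fin 2) K, (∀ s < 3, Sys p (f s)) ∧
        Polynomial.X ^ 0 * φ (f 0) + Polynomial.X ^ 1 * φ (f 1) + Polynomial.X ^ 2 * φ (f 2) =
          Polynomial.X ^ j := by
  obtain ⟨G, h, k⟩ := gen K 81 84 A3 B3 (N3 X) p0 _
    (fun i k => by simp only [N3, row, ent]; split_ifs <;> simp) a3 b3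
  refine ⟨G, h, fun p hp j hj => ?_⟩
  obtain ⟨c, hc⟩ := k p hp fun i => if i.val = 72 + j then 1 else 0
  let d : ℕ → K := fun k => if h : k < 84 then c ⟨k, h⟩ else 0
  have hd : ∀ r < 81, ∑ k : Fin 28, N3 p r k * d k + ∑ k : Fin 28, N3 p r (28 + k) * d (28 + k) +
      ∑ k : Fin 28, N3 p r (28 + 28 + k) * d (28 + 28 + k) = if r = 72 + j then 1 else 0 := by
    intro r hr
    rw [← hc ⟨r, hr⟩, Fin.sum_univ_eq_sum_range fun k => N3 p r k * d k,
      Fin.sum_univ_eq_sum_range fun k => N3 p r (28 + k) * d (28 + k),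
      Fin.sum_univ_eq_sum_range fun k => N3 p r (28 + 28 + k) * d (28 + 28 + k),
      ← Finset.sum_range_add (fun k => N3 p r k * d k),
      ← Finset.sum_range_add (fun k => N3 p r k * d k), Finset.sum_range]
    refine Finset.sum_congr rfl fun k _ => ?_
    have : d k = c k := by simp [d]
    rw [this]
    congr 1
    simp only [N3, row, ent, ← coe_eval₂Hom]
    split_ifs <;> simp
  have q0 : ∀ k : Fin 28, k.val / 28 = 0 ∧ k.val % 28 = k := fun k => by omega
  have q1 : ∀ k : Fin 28, (28 + k.val) / 28 = 1 ∧ (28 + k.val) % 28 = k := fun k => by omega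
  have q2 : ∀ k : Fin 28, (28 + 28 + k.val) / 28 = 2 ∧ (28 + 28 + k.val) % 28 = k :=
    fun k => by omega
  refine ⟨fun s => pl fun k => d (28 * s + k), fun s hs => sys_of fun r hr => ?_, ?_⟩
  · have := hd (24 * s + r) (by omega)
    have a : 24 * s + r < 72 := by omega
    have b : (24 * s + r) / 24 = s := by omega
    have e : (24 * s + r) % 24 = r := by omega
    simp only [N3, a, b, e, q0, q1, q2, if_true] at this
    rw [if_neg (by omega)] at this
    interval_cases s <;> simpa [R] using this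
  · ext n
    simp only [Polynomial.coeff_add, φ_coeff, Polynomial.coeff_X_pow]
    by_cases hn : n < 9
    · have := hd (72 + n) (by omega)
      have a : ¬ 72 + n < 72 := by omega
      simp only [N3, a, q0, q1, q2, if_false, Nat.add_sub_cancel_left, Nat.add_left_cancel_iff]
        at this
      simpa using this
    · have l : ∀ k : Fin 28, ea k < 7 := by decide +kernel
      have z : ∀ s < 3, ∀ k : Fin 28, ¬ (eb k = 0 ∧ ea k + s = n) := fun s hs k h => by
        have := l k; omega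
      simp only [z 0 (by omega), z 1 (by omega), z 2 (by omega), if_false, zero_mul,
        Finset.sum_const_zero, zero_add]
      rw [if_neg (by omega)]

lemma nofix {p : Fin 7 × Fin 2 → K} (h : ∀ j < 9,
      ∃ f : ℕ → MvPolynomial (Fin 2) K, (∀ s < 3, Sys p (f s)) ∧
        Polynomial.X ^ 0 * φ (f 0) + Polynomial.X ^ 1 * φ (f 1) + Polynomial.X ^ 2 * φ (f 2) =
          Polynomial.X ^ j) :
    (∀ g, (∀ f, Sys p f → g ∣ f) → IsUnit g) ∧ ∃ f, Sys p f ∧ f.totalDegree = 6 := by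
  obtain ⟨f, hf, e⟩ := h 0 (by omega)
  obtain ⟨f', hf', e'⟩ := h 8 (by omega)
  have d : 6 ≤ (φ (f' 2)).natDegree := by
    have c := congrArg (fun q => q.coeff 8) e'
    have a : ∀ s < 3, (φ (f' s)).natDegree ≤ 6 := fun s hs => (φ_deg _).trans (hf' s hs).1
    simp only [Polynomial.coeff_add, Polynomial.coeff_X_pow_mul', Polynomial.coeff_X_pow] at c
    rw [Polynomial.coeff_eq_zero_of_natDegree_lt (by have := a 0 (by omega); omega),
      Polynomial.coeff_eq_zero_of_natDegree_lt (by have := a 1 (by omega); omega)] at c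
    exact Polynomial.le_natDegree_of_ne_zero (by simp at c; simp [c])
  have d2 := (hf' 2 (by omega)).1
  refine ⟨fun g hg => ?_, f' 2, hf' 2 (by omega), le_antisymm d2 (d.trans (φ_deg _))⟩
  have u : IsUnit (φ g) := by
    refine isUnit_of_dvd_one ?_
    rw [← pow_zero Polynomial.X, ← e]
    have := fun s hs => Dvd.dvd.mul_left (map_dvd φ (hg _ (hf s hs))) (Polynomial.X ^ s)
    exact dvd_add (dvd_add (this 0 (by omega)) (this 1 (by omega))) (this 2 (by omega))
  obtain ⟨k, hk⟩ := hg _ (hf' 2 (by omega))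
  have g0 : g ≠ 0 := by rintro rfl; simp at u
  have k0 : k ≠ 0 := by rintro rfl; simp [hk] at d
  have t := totalDegree_mul_of_isDomain g0 k0
  have n := Polynomial.natDegree_mul_le (p := φ g) (q := φ k)
  rw [← map_mul, ← hk, Polynomial.natDegree_eq_zero_of_isUnit u] at n
  have := φ_deg k
  rw [← hk] at t
  have z := totalDegree_eq_zero_iff_eq_C.1 (show g.totalDegree = 0 by omega)
  rw [z]
  refine (Ne.isUnit fun h => g0 ?_).map C
  rw [z, h, map_zero]

lemma cubic (p : Fin 7 × Fin 2 → K) :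
    ∃ f, Sys p f ∧ f ≠ 0 ∧ f ∈ I (p (0, 0)) (p (0, 1)) ^ 4 := by
  let M : Matrix (Fin 27) (Fin 28) K := fun r k =>
    if r.val < 9 then row p (if r.val < 3 then r else 3 * r - 3) k
    else if k.val = r + 1 then 1 else 0
  obtain ⟨c, hc, c0⟩ := (Submodule.ne_bot_iff _).1
    (LinearMap.ker_ne_bot_of_finrank_lt (f := M.mulVecLin) (by simp))
  have hc : ∀ r, ∑ k, M r k * c k = 0 := fun r => congrFun hc r
  have h1 : ∀ r < 9, R p c (if r < 3 then r else 3 * r - 3) = 0 := fun r hr => by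
    simpa [M, hr, R] using hc ⟨r, by omega⟩
  have h2 : ∀ k : Fin 28, 3 < ea k + eb k → c k = 0 := by
    intro k hk
    have l : ∀ k : Fin 28, 3 < ea k + eb k → 10 ≤ k.val := by decide +kernel
    have := l k hk
    have e := hc ⟨k.val - 1, by omega⟩
    have a : ¬ k.val - 1 < 9 := by omega
    have b : k.val - 1 + 1 = k := by omega
    simpa [M, a, b, Fin.val_inj] using e
  have n : pl c ≠ 0 := fun e => c0 (funext fun k => by rw [← coeff_pl c k, e]; simp)
  have m : ∀ i, pl c ∈ I (p (i, 0)) (p (i, 1)) ^ (if i = 0 then 2 else 1) := by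
    intro i
    refine mem_of fun u v k => ?_
    have : ∀ i : Fin 7, ∀ u < 2, ∀ v < 2, u + v < (if i = 0 then 2 else 1) →
        ∃ r < 9, pt (if r < 3 then r else 3 * r - 3) = i ∧ du (if r < 3 then r else 3 * r - 3) = u ∧
          dv (if r < 3 then r else 3 * r - 3) = v := by decide +kernel
    obtain ⟨r, hr, rfl, rfl, rfl⟩ := this i u (by split_ifs at k <;> omega) v
      (by split_ifs at k <;> omega) k
    exact h1 r hr
  have m2 : ∀ i, pl c * pl c ∈ I (p (i, 0)) (p (i, 1)) ^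
      ((if i = 0 then 2 else 1) + (if i = 0 then 2 else 1)) := fun i => by
    rw [pow_add]; exact Ideal.mul_mem_mul (m i) (m i)
  refine ⟨pl c * pl c, ⟨(totalDegree_mul _ _).trans ?_, fun i => Ideal.pow_le_pow_right ?_ (m2 i)⟩,
    mul_ne_zero n n, m2 0⟩
  · have := deg_pl c 3 h2
    omega
  · revert i
    decide

lemma R_sub (p : Fin 7 × Fin 2 → K) (c d : Fin 28 → K) (r : ℕ) :
    R p (c - d) r = R p c r - R p d r := by simp [R, mul_sub]

lemma nosurj [CharZero K] {p : Fin 7 × Fin 2 → K}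
    (h1 : ∀ t : ℕ → K, ∃ c, ∀ i < 28, R p c (s1 i) = t i)
    (h5 : ∀ t : ℕ → K, ∃ c, ∀ i < 10, R p c (s5 i) = t i) :
    ∃ h ∈ I (p (0, 0)) (p (0, 1)) ^ 3, ∀ f, Sys p f → f - h ∉ I (p (0, 0)) (p (0, 1)) ^ 4 := by
  by_contra hh
  push Not at hh
  let M : Matrix (Fin 28) (Fin 28) K := fun r k => row p r k
  have t4 : ∀ r < 28, 24 ≤ r → pt r = 0 ∧ du r + dv r < 4 := by decide +kernel
  have su : Function.Surjective M.mulVec := by
    intro t
    let t' : ℕ → K := fun r => if h : r < 28 then t ⟨r, h⟩ else 0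
    obtain ⟨c1, hc1⟩ := h1 t'
    obtain ⟨c2, hc2⟩ := h5 fun i => if i < 6 then 0 else R p c1 (i + 18) - t' (i + 18)
    obtain ⟨f, hf, e⟩ := hh (pl c2) (mem_of fun u v k => by
      have : ∀ u < 3, ∀ v < 3, u + v < 3 → ∃ r < 6, pt r = 0 ∧ du r = u ∧ dv r = v := by
        decide +kernel
      obtain ⟨r, hr, a, rfl, rfl⟩ := this u (by omega) v (by omega) k
      have := hc2 r (by omega)
      simpa [s5, hr, R, row, a] using this)
    obtain ⟨c3, rfl⟩ := expand hf.1
    refine ⟨c1 - c3, funext fun r => ?_⟩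
    change R p (c1 - c3) r = t r
    rw [R_sub]
    by_cases hr : r.val < 24
    · have := hc1 r r.2
      rw [of_sys hf r hr, sub_zero]
      simpa [s1, hr, t'] using this
    · obtain ⟨a, b⟩ := t4 r r.2 (by omega)
      rw [pl_sub, ← a] at e
      have z := R_of b e
      have w := hc2 (r - 18) (by omega)
      have a1 : ¬ r.val - 18 < 6 := by omega
      have a2 : r.val - 18 + 18 = r := by omega
      simp only [s5, a1, a2, if_false, t', r.2, dif_pos] at w
      rw [R_sub] at z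
      linear_combination -z - w
  have inj := Matrix.mulVec_injective_iff_isUnit.2 (Matrix.mulVec_surjective_iff_isUnit.1 su)
  obtain ⟨f, hf, f0, f4⟩ := cubic p
  obtain ⟨c, rfl⟩ := expand hf.1
  have : c = 0 := inj (funext fun r => by
    rw [Matrix.mulVec_zero]
    change R p c r = 0
    by_cases hr : r.val < 24
    · exact of_sys hf r hr
    · obtain ⟨a, b⟩ := t4 r r.2 (by omega)
      exact R_of b (by rwa [a]))
  exact f0 (by simp [this, pl])

lemma exact [CharZero K] {p : Fin 7 × Fin 2 → K}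
    (h1 : ∀ t : ℕ → K, ∃ c, ∀ i < 28, R p c (s1 i) = t i)
    (h2 : ∀ t : ℕ → K, ∃ c, ∀ i < 28, R p c (s2 i) = t i) (i : Fin 7) :
    ∃ f, Sys p f ∧ f ∉ I (p (i, 0)) (p (i, 1)) ^ (mm i + 1) := by
  obtain ⟨c1, e1⟩ := h1 fun i => if i < 24 then 0 else 1
  obtain ⟨c2, e2⟩ := h2 fun i => if i < 24 then 0 else 1
  have : ∀ i : Fin 7, ∃ r < 28, ¬ r < 24 ∧
      ((pt (s1 r) = i ∧ du (s1 r) + dv (s1 r) < mm i + 1) ∨
        (pt (s2 r) = i ∧ du (s2 r) + dv (s2 r) < mm i + 1)) := by decide +kernel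
  obtain ⟨r, hr, hr', ⟨rfl, b⟩ | ⟨rfl, b⟩⟩ := this i
  · refine ⟨pl c1, sys_of fun r h => by simpa [s1, h] using e1 r (by omega), fun k => ?_⟩
    simpa [hr', R_of b k] using e1 r hr
  · refine ⟨pl c2, sys_of fun r h => ?_, fun k => ?_⟩
    · simpa [s2, h, show r < 25 by omega] using e2 r (by omega)
    · simpa [hr', R_of b k] using e2 r hr

lemma distinct {p : Fin 7 × Fin 2 → K} (h1 : ∀ t : ℕ → K, ∃ c, ∀ i < 28, R p c (s1 i) = t i)
    (i j : Fin 7) (h : ∀ l, p (i, l) = p (j, l)) : i = j := by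
  have : ∀ i : Fin 7, ∃ r < 24, pt r = i ∧ du r = 0 ∧ dv r = 0 := by decide +kernel
  obtain ⟨r, hr, rfl, a1, a2⟩ := this i
  obtain ⟨s, hs, rfl, b1, b2⟩ := this j
  obtain ⟨c, e⟩ := h1 fun i => if i = r then 1 else 0
  have x := e r (by omega)
  have y := e s (by omega)
  simp only [s1, hr, hs, if_true, R, row, a1, a2, b1, b2, h] at x y
  by_contra k
  rw [x, if_neg fun e => k (by rw [e])] at y
  exact one_ne_zero y

theorem main (K : Type*) [Field K] [CharZero K] :
    ∃ G : MvPolynomial (Fin 7 × Fin 2) K, G ≠ 0 ∧ ∀ p : Fin 7 × Fin 2 → K, eval p G ≠ 0 →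
      (∀ i j : Fin 7, (∀ l, p (i, l) = p (j, l)) → i = j) ∧
      (∀ g, (∀ f, Sys p f → g ∣ f) → IsUnit g) ∧ (∃ f, Sys p f ∧ f.totalDegree = 6) ∧
      (∀ i, ∃ f, Sys p f ∧ f ∉ I (p (i, 0)) (p (i, 1)) ^ (mm i + 1)) ∧
      (∃ f, Sys p f ∧ f ≠ 0 ∧ f ∈ I (p (0, 0)) (p (0, 1)) ^ 4) ∧
      ∃ h ∈ I (p (0, 0)) (p (0, 1)) ^ 3, ∀ f, Sys p f → f - h ∉ I (p (0, 0)) (p (0, 1)) ^ 4 := by
  obtain ⟨G1, n1, h1⟩ := genR K 28 A1 B1 s1 a1 b1
  obtain ⟨G2, n2, h2⟩ := genR K 28 A2 B2 s2 a2 b2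
  obtain ⟨G5, n5, h5⟩ := genR K 10 A5 B5 s5 a5 b5
  obtain ⟨G3, n3, h3⟩ := gen3 K
  refine ⟨G1 * G2 * (G5 * G3), mul_ne_zero (mul_ne_zero n1 n2) (mul_ne_zero n5 n3), fun p hp => ?_⟩
  simp only [map_mul, mul_ne_zero_iff] at hp
  obtain ⟨⟨e1, e2⟩, e5, e3⟩ := hp
  exact ⟨distinct (h1 p e1), (nofix (h3 p e3)).1, (nofix (h3 p e3)).2,
    exact (h1 p e1) (h2 p e2), cubic p, nosurj (h1 p e1) (h5 p e5)⟩

end Pool.Agent.H.MP_5bb273_ag
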